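import Pool.Agent.Helper17.SO.Stmts

/-! Module CIRC (MP_c38931_co): the determinant of the block-circulant matrix of a symmetric
design with a fixed-point-free automorphism of prime order. -/

set_option autoImplicit false

open Finset

namespace Pool.Agent.Helper17.SO

/-- the relation of lying in the same orbit -/
def circ_setoid {v q : ℕ} (g : Equiv.Perm (Fin v)) (hq : 1 ≤ q) (hg : g ^ q = 1) :
    Setoid (Fin v) where
  r a b := ∃ m : ℕ, (g ^ m) a = b
  iseqv := by
    refine ⟨fun a => ⟨0, by simp⟩, ?_, ?_⟩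
    · rintro a b ⟨m, rfl⟩
      refine ⟨(q - 1) * m, ?_⟩
      rw [← Equiv.Perm.mul_apply, ← pow_add]
      have h1 : (q - 1) * m + m = q * m := by
        obtain ⟨q', rfl⟩ : ∃ q', q = q' + 1 := ⟨q - 1, by omega⟩
        simp
        ring
      rw [h1, pow_mul, hg, one_pow, Equiv.Perm.one_apply]
    · rintro a b c ⟨m, rfl⟩ ⟨m', rfl⟩
      exact ⟨m' + m, by rw [pow_add, Equiv.Perm.mul_apply]⟩

theorem circ_orb (v q : ℕ) (g : Equiv.Perm (Fin v)) (hq : q.Prime) (hg : g ^ q = 1)
    (hfix : ∀ a, g a ≠ a) : ∃ r : ℕ, v = q * r ∧ ∃ x : Fin r → Fin v,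
      Function.Bijective (fun p : Fin r × ZMod q => (g ^ p.2.val) (x p.1)) := by
  classical
  have hF : Fact q.Prime := ⟨hq⟩
  let s := circ_setoid g hq.one_lt.le hg
  have hper : ∀ a, Function.minimalPeriod g a = q := by
    intro a
    refine Function.minimalPeriod_eq_prime ?_ (hfix a)
    change g^[q] a = a
    rw [Equiv.Perm.iterate_eq_pow, hg, Equiv.Perm.one_apply]
  have hbij : Function.Bijective
      (fun p : Quotient s × ZMod q => (g ^ p.2.val) (Quotient.out p.1)) := by
    constructor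
    · rintro ⟨c, t⟩ ⟨c', t'⟩ h
      have h' : (g ^ t.val) (Quotient.out c) = (g ^ t'.val) (Quotient.out c') := h
      have h1 : s (Quotient.out c) (Quotient.out c') := by
        have h2 : s (Quotient.out c) ((g ^ t.val) (Quotient.out c)) := ⟨t.val, rfl⟩
        have h3 : s (Quotient.out c') ((g ^ t.val) (Quotient.out c)) := ⟨t'.val, h'.symm⟩
        exact s.trans' h2 (s.symm' h3)
      have h2 : c = c' := Quotient.out_equiv_out.1 h1
      subst h2
      have h3 : t.val = t'.val := by
        rw [← Equiv.Perm.iterate_eq_pow, ← Equiv.Perm.iterate_eq_pow] at h'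
        refine (Function.iterate_eq_iterate_iff_of_lt_minimalPeriod ?_ ?_).1 h'
        · rw [hper]
          exact ZMod.val_lt t
        · rw [hper]
          exact ZMod.val_lt t'
      rw [ZMod.val_injective q h3]
    · intro a
      have h1 : s (Quotient.out (Quotient.mk s a)) a := Quotient.exact (Quotient.out_eq _)
      obtain ⟨m, hm⟩ := h1
      refine ⟨(Quotient.mk s a, (m : ZMod q)), ?_⟩
      change (g ^ (m : ZMod q).val) (Quotient.out (Quotient.mk s a)) = a
      rw [ZMod.val_natCast, ← pow_eq_pow_mod m hg]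
      exact hm
  have hcard : v = q * Fintype.card (Quotient s) := by
    have h1 := Fintype.card_of_bijective hbij
    rw [Fintype.card_prod, ZMod.card, Fintype.card_fin] at h1
    exact h1.symm.trans (mul_comm _ _)
  let ε : Fin (Fintype.card (Quotient s)) ≃ Quotient s := (Fintype.equivFin (Quotient s)).symm
  refine ⟨Fintype.card (Quotient s), hcard, fun i => Quotient.out (ε i), ?_⟩
  have h2 : (fun p : Fin (Fintype.card (Quotient s)) × ZMod q =>
      (g ^ p.2.val) (Quotient.out (ε p.1))) =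
      (fun p : Quotient s × ZMod q => (g ^ p.2.val) (Quotient.out p.1)) ∘
        (Equiv.prodCongr ε (Equiv.refl (ZMod q))) := by
    funext p
    rfl
  rw [h2]
  exact hbij.comp (Equiv.prodCongr ε (Equiv.refl (ZMod q))).bijective

theorem circ_padd {v q : ℕ} [NeZero q] (g : Equiv.Perm (Fin v)) (hg : g ^ q = 1)
    (u w : ZMod q) : g ^ (u + w).val = g ^ u.val * g ^ w.val := by
  rw [ZMod.val_add, ← pow_eq_pow_mod _ hg, pow_add]

theorem circ_inv {v : ℕ} (A : Matrix (Fin v) (Fin v) ℤ) (g π : Equiv.Perm (Fin v))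
    (hA : ∀ a i, A (g a) (π i) = A a i) (m : ℕ) :
    ∀ a i, A ((g ^ m) a) ((π ^ m) i) = A a i := by
  induction m with
  | zero =>
    intro a i
    simp
  | succ m ih =>
    intro a i
    rw [pow_succ, pow_succ, Equiv.Perm.mul_apply, Equiv.Perm.mul_apply, ih, hA]

theorem st_CIRC : ST_CIRC := by
  classical
  intro v n lam q A g π ζ hq hζ hg hπ hgf hπf hA hAA
  have hF : Fact q.Prime := ⟨hq⟩
  obtain ⟨r, hr, x, hx⟩ := circ_orb v q g hq hg hgf
  obtain ⟨r', hr', b, hb⟩ := circ_orb v q π hq hπ hπf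
  have hrr : r' = r := Nat.eq_of_mul_eq_mul_left hq.pos (hr'.symm.trans hr)
  subst hrr
  refine ⟨r', hr, ?_⟩
  -- the character
  have hζq : ζ ^ q = 1 := hζ.pow_eq_one
  let Z : AddChar (ZMod q) ℂ := AddChar.zmodChar q hζq
  have hZ : ∀ u, Z u = ζ ^ u.val := fun u => AddChar.zmodChar_apply hζq u
  have hZsum : ∑ u, Z u = 0 := by
    refine AddChar.sum_eq_zero_of_ne_one ?_
    intro h1
    have h2 : Z 1 = 1 := by rw [h1]; rfl
    have h3 : (1 : ZMod q).val = 1 := by
      have : Fact (1 < q) := ⟨hq.one_lt⟩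
      exact ZMod.val_one q
    rw [hZ, h3, pow_one] at h2
    exact hζ.ne_one hq.one_lt h2
  have hnorm : ‖ζ‖ = 1 := hζ.norm'_eq_one hq.ne_zero
  have hZc : ∀ u, (starRingEnd ℂ) (Z u) = Z (-u) := by
    intro u
    have h1 : Z u * Z (-u) = 1 := by
      rw [← AddChar.map_add_eq_mul, add_neg_cancel, AddChar.map_zero_eq_one]
    have h2 : Z u * (starRingEnd ℂ) (Z u) = 1 := by
      rw [Complex.mul_conj, Complex.normSq_eq_norm_sq, hZ, norm_pow, hnorm]
      simp
    have h3 : Z u ≠ 0 := left_ne_zero_of_mul_eq_one h1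
    exact mul_left_cancel₀ h3 (h2.trans h1.symm)
  -- the matrix
  let M : Matrix (Fin r') (Fin r') ℂ :=
    Matrix.of fun i j => ∑ t : ZMod q, (A (x i) ((π ^ t.val) (b j)) : ℂ) * Z t
  have hM : ∀ i j, M i j = ∑ t : ZMod q, (A (x i) ((π ^ t.val) (b j)) : ℂ) * Z t :=
    fun i j => rfl
  have hrow : ∀ a a' : Fin v, ∑ j, ∑ t : ZMod q, (A a ((π ^ t.val) (b j)) : ℂ) *
      (A a' ((π ^ t.val) (b j)) : ℂ) = (if a = a' then (n : ℂ) else 0) + lam := by
    intro a a'
    have h1 : ∑ c, (A a c : ℂ) * (A a' c : ℂ) = (if a = a' then (n : ℂ) else 0) + lam := by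
      have h2 := congrFun (congrFun hAA a) a'
      rw [Matrix.mul_apply] at h2
      have h3 : ∑ c, A a c * A a' c = (if a = a' then (n : ℤ) else 0) + lam := by
        have h4 : ∑ c, A a c * A a' c = ∑ c, A a c * A.transpose c a' := rfl
        rw [h4, h2, Matrix.add_apply, Matrix.smul_apply, Matrix.smul_apply, Matrix.one_apply,
          Matrix.of_apply, smul_eq_mul, smul_eq_mul, mul_one, mul_ite, mul_one, mul_zero]
      have h5 := congrArg (fun z : ℤ => (z : ℂ)) h3
      push_cast at h5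
      exact h5
    rw [← h1, ← hb.sum_comp (fun c => (A a c : ℂ) * (A a' c : ℂ)), Fintype.sum_prod_type]
  have hprod : ∀ i i', ∑ j, M i j * (starRingEnd ℂ) (M i' j) = if i = i' then (n : ℂ) else 0 := by
    intro i i'
    have h1 : ∀ j, M i j * (starRingEnd ℂ) (M i' j) = ∑ u : ZMod q, ∑ t : ZMod q,
        Z u * ((A (x i) ((π ^ t.val) (b j)) : ℂ) *
          (A ((g ^ u.val) (x i')) ((π ^ t.val) (b j)) : ℂ)) := by
      intro j
      rw [hM, hM, map_sum, Finset.sum_mul_sum, Finset.sum_comm' (s := univ)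
        (t := fun _ => (univ : Finset (ZMod q))) (t' := univ) (s' := fun _ => univ) (by simp)]
      have h2 : ∀ t : ZMod q, ∑ s : ZMod q, ((A (x i) ((π ^ t.val) (b j)) : ℂ) * Z t) *
          (starRingEnd ℂ) ((A (x i') ((π ^ s.val) (b j)) : ℂ) * Z s) =
          ∑ u : ZMod q, Z u * ((A (x i) ((π ^ t.val) (b j)) : ℂ) *
          (A ((g ^ u.val) (x i')) ((π ^ t.val) (b j)) : ℂ)) := by
        intro t
        rw [← (Equiv.subLeft t).sum_comp]
        refine Finset.sum_congr rfl fun u _ => ?_
        rw [Equiv.subLeft_apply]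
        have h3 : A (x i') ((π ^ (t - u).val) (b j)) =
            A ((g ^ u.val) (x i')) ((π ^ t.val) (b j)) := by
          have h4 := circ_inv A g π hA u.val (x i') ((π ^ (t - u).val) (b j))
          rw [← h4, ← Equiv.Perm.mul_apply, ← circ_padd π hπ, add_sub_cancel]
        have h5 : Z t = Z u * Z (t - u) := by
          rw [← AddChar.map_add_eq_mul, add_sub_cancel]
        have h6 : Z (t - u) * (starRingEnd ℂ) (Z (t - u)) = 1 := by
          rw [hZc, ← AddChar.map_add_eq_mul, add_neg_cancel, AddChar.map_zero_eq_one]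
        rw [map_mul, h3, h5, map_intCast]
        linear_combination (Z u * (A (x i) ((π ^ t.val) (b j)) : ℂ) *
          (A ((g ^ u.val) (x i')) ((π ^ t.val) (b j)) : ℂ)) * h6
      rw [Finset.sum_comm]
      rw [Finset.sum_congr rfl fun t _ => h2 t, Finset.sum_comm]
    rw [Finset.sum_congr rfl fun j _ => h1 j, Finset.sum_comm]
    have h2 : ∀ u : ZMod q, ∑ j, ∑ t : ZMod q, Z u * ((A (x i) ((π ^ t.val) (b j)) : ℂ) *
          (A ((g ^ u.val) (x i')) ((π ^ t.val) (b j)) : ℂ)) =
          Z u * ((if x i = (g ^ u.val) (x i') then (n : ℂ) else 0) + lam) := by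
      intro u
      rw [← hrow (x i) ((g ^ u.val) (x i')), Finset.mul_sum]
      refine Finset.sum_congr rfl fun j _ => ?_
      rw [Finset.mul_sum]
    rw [Finset.sum_congr rfl fun u _ => h2 u]
    have h3 : ∀ u : ZMod q, (x i = (g ^ u.val) (x i') ↔ (i = i' ∧ u = 0)) := by
      intro u
      constructor
      · intro h4
        have h5 : (fun p : Fin r' × ZMod q => (g ^ p.2.val) (x p.1)) (i, 0) =
            (fun p : Fin r' × ZMod q => (g ^ p.2.val) (x p.1)) (i', u) := by
          simpa using h4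
        have h6 := hx.1 h5
        rw [Prod.mk.injEq] at h6
        exact ⟨h6.1, h6.2.symm⟩
      · rintro ⟨rfl, rfl⟩
        simp
    simp only [mul_add, Finset.sum_add_distrib, ← Finset.sum_mul, hZsum, zero_mul, add_zero]
    by_cases hii : i = i'
    · rw [if_pos hii]
      rw [Finset.sum_eq_single (0 : ZMod q)]
      · rw [if_pos ((h3 0).2 ⟨hii, rfl⟩), AddChar.map_zero_eq_one, one_mul]
      · intro u _ hu
        rw [if_neg (fun h4 => hu ((h3 u).1 h4).2), mul_zero]
      · intro h4
        exact absurd (Finset.mem_univ _) h4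
    · rw [if_neg hii]
      refine Finset.sum_eq_zero fun u _ => ?_
      rw [if_neg (fun h4 => hii ((h3 u).1 h4).1), mul_zero]
  have hMM : M * M.conjTranspose = (n : ℂ) • (1 : Matrix (Fin r') (Fin r') ℂ) := by
    ext i i'
    rw [Matrix.mul_apply, Matrix.smul_apply, Matrix.one_apply, smul_eq_mul, mul_ite, mul_one,
      mul_zero, ← hprod i i']
    rfl
  refine ⟨M.det, ?_, ?_⟩
  · rw [Matrix.det_apply']
    refine Subalgebra.sum_mem _ fun σ _ => ?_
    refine Subalgebra.mul_mem _ (Subalgebra.intCast_mem _ _) ?_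
    refine Subalgebra.prod_mem _ fun i _ => ?_
    rw [hM]
    refine Subalgebra.sum_mem _ fun t _ => ?_
    refine Subalgebra.mul_mem _ (Subalgebra.intCast_mem _ _) ?_
    rw [hZ]
    exact Subalgebra.pow_mem _ (Algebra.subset_adjoin (Set.mem_singleton ζ)) _
  · have h1 := congrArg Matrix.det hMM
    rw [Matrix.det_mul, Matrix.det_conjTranspose, Matrix.det_smul, Matrix.det_one, mul_one,
      Fintype.card_fin] at h1
    exact h1

end Pool.Agent.Helper17.SO
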