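import Pool.Agent.Helper17.SO.Stmts

/-! Module CNT (MP_c38931_co): the count for all `x` and `W`. -/

set_option autoImplicit false

open Finset

namespace Pool.Agent.Helper17.SO

theorem cnt_log (L δ : ℝ) (hL : 1 ≤ L) (hδ : 0 < δ) :
    1 + Real.log L ≤ (1 + 1 / δ) * L ^ δ := by
  have h1 := Real.log_le_rpow_div (by linarith : 0 ≤ L) hδ
  have h2 : 1 ≤ L ^ δ := Real.one_le_rpow hL hδ.le
  have h3 : (1 + 1 / δ) * L ^ δ = L ^ δ + L ^ δ / δ := by ring
  rw [h3]
  linarith

theorem cnt_z (x A : ℕ) (hA : 1 ≤ A) (hx : 1 ≤ x) : ∃ z : ℕ, z ^ A ≤ x ∧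
    Real.log x ≤ A * Real.log ((z : ℝ) + 1) := by
  have hA' : (0 : ℝ) < A := by exact_mod_cast hA
  have hx' : (0 : ℝ) < x := by exact_mod_cast hx
  set t : ℝ := (x : ℝ) ^ (1 / (A : ℝ)) with ht
  have ht0 : 0 < t := Real.rpow_pos_of_pos hx' _
  refine ⟨⌊t⌋₊, ?_, ?_⟩
  · have h1 : ((⌊t⌋₊ : ℕ) : ℝ) ≤ t := Nat.floor_le ht0.le
    have h2 : t ^ A = (x : ℝ) := by
      rw [ht, ← Real.rpow_natCast, ← Real.rpow_mul hx'.le, one_div, inv_mul_cancel₀ hA'.ne',
        Real.rpow_one]
    have h3 : ((⌊t⌋₊ : ℕ) : ℝ) ^ A ≤ (x : ℝ) := by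
      rw [← h2]
      exact pow_le_pow_left₀ (Nat.cast_nonneg _) h1 A
    exact_mod_cast h3
  · have h1 : t < (⌊t⌋₊ : ℝ) + 1 := Nat.lt_floor_add_one t
    have h2 : Real.log t ≤ Real.log ((⌊t⌋₊ : ℝ) + 1) := Real.log_le_log ht0 h1.le
    have h3 : Real.log t = 1 / (A : ℝ) * Real.log x := by
      rw [ht, Real.log_rpow hx']
    have h4 : Real.log x = A * Real.log t := by
      rw [h3]
      field_simp
    rw [h4]
    exact mul_le_mul_of_nonneg_left h2 hA'.le

theorem cnt_ceil (L : ℝ) (hL : 1 ≤ L) :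
    Real.log (⌈L ^ 3⌉₊ : ℝ) ≤ Real.log 2 + 3 * Real.log L := by
  have h1 : 1 ≤ L ^ 3 := one_le_pow₀ hL
  have h2 : (⌈L ^ 3⌉₊ : ℝ) < L ^ 3 + 1 := Nat.ceil_lt_add_one (by linarith)
  have h3 : (0 : ℝ) < (⌈L ^ 3⌉₊ : ℝ) := lt_of_lt_of_le (by linarith) (Nat.le_ceil _)
  have h4 : Real.log (⌈L ^ 3⌉₊ : ℝ) ≤ Real.log (2 * L ^ 3) :=
    Real.log_le_log h3 (by linarith)
  rw [Real.log_mul (by norm_num) (by positivity), Real.log_pow] at h4
  exact_mod_cast h4

/-- the case `w ≤ z` -/
theorem cnt_main (LW Lx Lw Lz A K1 K3 Λ α β δ : ℝ) (hA : 1 ≤ A) (hLW : Real.log 2 ≤ LW)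
    (hLx : 1 ≤ Lx) (hWx : LW ≤ Lx) (hLz : Lx ≤ 2 * A * Lz) (hΛ : 0 ≤ Λ)
    (hK1 : K1 = 1 + Λ / Real.log 2) (hK3 : K3 = Real.log 2 + 3 + Λ) (hLw0 : 0 ≤ Lw)
    (hα : 0 < α) (hβ : 0 < β) (hβα : β ≤ α) (hδ : 0 < δ) (hδα : (1 - δ) * α = β)
    (hLw : Lw ≤ LW + Λ ∨ Lw ≤ Real.log 2 + 3 * Real.log Lx + Λ) :
    (Lw / Lz) ^ α ≤ ((2 * A * K1) ^ α + (2 * A * K3 * (1 + 1 / δ)) ^ α *
      (Real.log 2) ^ (-β)) * (LW / Lx) ^ β := by
  have hl2 : 0 < Real.log 2 := Real.log_pos (by norm_num)
  have hLW0 : 0 < LW := lt_of_lt_of_le hl2 hLW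
  have hLx0 : 0 < Lx := by linarith
  have hLz0 : 0 < Lz := by
    by_contra h
    push Not at h
    have : 2 * A * Lz ≤ 0 := mul_nonpos_of_nonneg_of_nonpos (by linarith) h
    linarith
  have hb0 : 0 < LW / Lx := div_pos hLW0 hLx0
  have hb1 : LW / Lx ≤ 1 := (div_le_one hLx0).2 hWx
  have hzinv : 1 / Lz ≤ 2 * A / Lx := by
    rw [div_le_div_iff₀ hLz0 hLx0]
    linarith
  have hK10 : 0 < K1 := by
    rw [hK1]
    positivity
  have hK30 : 0 < K3 := by
    rw [hK3]
    positivity
  have hbβ : 0 < (LW / Lx) ^ β := Real.rpow_pos_of_pos hb0 _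
  have hq0 : 0 ≤ Lw / Lz := div_nonneg hLw0 hLz0.le
  rcases hLw with h | h
  · have h1 : Lw ≤ K1 * LW := by
      have h2 : Λ ≤ Λ / Real.log 2 * LW := by
        rw [div_mul_eq_mul_div, le_div_iff₀ hl2]
        exact mul_le_mul_of_nonneg_left hLW hΛ
      rw [hK1]
      linarith
    have h2 : Lw / Lz ≤ (2 * A * K1) * (LW / Lx) := by
      calc Lw / Lz = Lw * (1 / Lz) := by ring
        _ ≤ (K1 * LW) * (2 * A / Lx) :=
            mul_le_mul h1 hzinv (by positivity) (by positivity)
        _ = (2 * A * K1) * (LW / Lx) := by ring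
    have h3 : (Lw / Lz) ^ α ≤ (2 * A * K1) ^ α * (LW / Lx) ^ α := by
      rw [← Real.mul_rpow (by positivity) hb0.le]
      exact Real.rpow_le_rpow hq0 h2 hα.le
    have h4 : (LW / Lx) ^ α ≤ (LW / Lx) ^ β :=
      Real.rpow_le_rpow_of_exponent_ge hb0 hb1 hβα
    have h5 : 0 ≤ (2 * A * K1) ^ α := by positivity
    have h6 : 0 ≤ (2 * A * K3 * (1 + 1 / δ)) ^ α * (Real.log 2) ^ (-β) := by positivity
    calc (Lw / Lz) ^ α ≤ (2 * A * K1) ^ α * (LW / Lx) ^ α := h3
      _ ≤ (2 * A * K1) ^ α * (LW / Lx) ^ β := mul_le_mul_of_nonneg_left h4 h5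
      _ ≤ _ := mul_le_mul_of_nonneg_right (by linarith) hbβ.le
  · have hlogx : 0 ≤ Real.log Lx := Real.log_nonneg hLx
    have h1 : Lw ≤ K3 * (1 + Real.log Lx) := by
      rw [hK3]
      nlinarith [mul_nonneg hl2.le hlogx, mul_nonneg hΛ hlogx]
    have h1' := h1.trans (mul_le_mul_of_nonneg_left (cnt_log Lx δ hLx hδ) hK30.le)
    have hLδ : 0 < Lx ^ δ := Real.rpow_pos_of_pos hLx0 _
    have h2 : Lw / Lz ≤ (2 * A * K3 * (1 + 1 / δ)) * Lx ^ (δ - 1) := by
      calc Lw / Lz = Lw * (1 / Lz) := by ring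
        _ ≤ (K3 * ((1 + 1 / δ) * Lx ^ δ)) * (2 * A / Lx) :=
            mul_le_mul h1' hzinv (by positivity) (by positivity)
        _ = (2 * A * K3 * (1 + 1 / δ)) * (Lx ^ δ / Lx) := by ring
        _ = _ := by rw [Real.rpow_sub_one hLx0.ne']
    have h3 : (Lw / Lz) ^ α ≤ (2 * A * K3 * (1 + 1 / δ)) ^ α * Lx ^ (-β) := by
      have h4 : (Lx ^ (δ - 1)) ^ α = Lx ^ (-β) := by
        rw [← Real.rpow_mul hLx0.le]
        congr 1
        linarith
      rw [← h4, ← Real.mul_rpow (by positivity) (by positivity)]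
      exact Real.rpow_le_rpow hq0 h2 hα.le
    have h5 : Lx ^ (-β) ≤ (Real.log 2) ^ (-β) * (LW / Lx) ^ β := by
      have h6 : (Real.log 2 / Lx) ^ β ≤ (LW / Lx) ^ β :=
        Real.rpow_le_rpow (by positivity) (div_le_div_of_nonneg_right hLW hLx0.le) hβ.le
      have h7 : Lx ^ (-β) = (Real.log 2) ^ (-β) * (Real.log 2 / Lx) ^ β := by
        rw [Real.div_rpow hl2.le hLx0.le, Real.rpow_neg hl2.le, Real.rpow_neg hLx0.le]
        field_simp
      rw [h7]
      exact mul_le_mul_of_nonneg_left h6 (by positivity)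
    have h8 : 0 ≤ (2 * A * K1) ^ α := by positivity
    calc (Lw / Lz) ^ α ≤ (2 * A * K3 * (1 + 1 / δ)) ^ α * Lx ^ (-β) := h3
      _ ≤ (2 * A * K3 * (1 + 1 / δ)) ^ α * ((Real.log 2) ^ (-β) * (LW / Lx) ^ β) :=
          mul_le_mul_of_nonneg_left h5 (by positivity)
      _ = ((2 * A * K3 * (1 + 1 / δ)) ^ α * (Real.log 2) ^ (-β)) * (LW / Lx) ^ β := by ring
      _ ≤ _ := mul_le_mul_of_nonneg_right (by linarith) hbβ.le

theorem st_CNT (hZ : ST_CNTZ) : ST_CNT := by
  intro lam ε hlam hε
  have hkap : 0 ≤ kap lam ∧ kap lam ≤ 1 / 8 := by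
    unfold kap
    split_ifs <;> constructor <;> norm_num
  have hl2 : 0 < Real.log 2 := Real.log_pos (by norm_num)
  have htriv : ∀ (x : ℕ) (S : Finset ℕ), 2 ≤ x → (∀ k ∈ S, k ≤ x) → (S.card : ℝ) ≤ 2 * x := by
    intro x S hx hS
    have h1 : S ⊆ Finset.range (x + 1) := fun k hk => Finset.mem_range.2 (by
      have := hS k hk
      omega)
    have h2 := Finset.card_le_card h1
    rw [Finset.card_range] at h2
    have h3 : S.card ≤ 2 * x := by omega
    exact_mod_cast h3
  by_cases hβ : 1 + kap lam - ε ≤ 0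
  · refine ⟨2, by norm_num, ?_⟩
    intro x W hW hWx S hS
    have hx : 2 ≤ x := hW.trans hWx
    have h1 := htriv x S hx (fun k hk => (hS k hk).1)
    have hLW : 0 < Real.log W := Real.log_pos (by exact_mod_cast (by omega : 1 < W))
    have hLx : 0 < Real.log x := Real.log_pos (by exact_mod_cast (by omega : 1 < x))
    have hWx' : Real.log W ≤ Real.log x :=
      Real.log_le_log (by exact_mod_cast (by omega : 0 < W)) (by exact_mod_cast hWx)
    have h2 : 1 ≤ (Real.log W / Real.log x) ^ (1 + kap lam - ε) :=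
      Real.one_le_rpow_of_pos_of_le_one_of_nonpos (div_pos hLW hLx)
        ((div_le_one hLx).2 hWx') hβ
    have h3 : (0 : ℝ) ≤ 2 * x := by positivity
    calc (S.card : ℝ) ≤ 2 * x * 1 := by linarith
      _ ≤ _ := mul_le_mul_of_nonneg_left h2 h3
  · push Not at hβ
    obtain ⟨A, C1, hA, hC1, hcount⟩ := hZ lam (ε / 2) hlam (by linarith)
    set β : ℝ := 1 + kap lam - ε with hβd
    set α : ℝ := 1 + kap lam - ε / 2 with hαd
    have hα : 0 < α := by rw [hαd]; linarith
    have hβα : β ≤ α := by rw [hαd, hβd]; linarith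
    have hβ3 : β ≤ 3 := by rw [hβd]; linarith
    have hδ : 0 < ε / (2 * α) := by positivity
    have hδα : (1 - ε / (2 * α)) * α = β := by
      have h1 : (1 - ε / (2 * α)) * α = α - ε / 2 := by
        field_simp
      rw [h1, hαd, hβd]
      ring
    have hAR : (1 : ℝ) ≤ A := by exact_mod_cast hA
    set Λ : ℝ := Real.log ((8 * lam + 7 : ℕ) : ℝ) with hΛd
    have hΛ : 0 ≤ Λ := Real.log_nonneg (by exact_mod_cast (by omega : 1 ≤ 8 * lam + 7))
    set K2 : ℝ := A + A * Λ / Real.log 2 + 49 * A ^ 2 / Real.log 2 with hK2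
    have hK20 : 0 < K2 := by rw [hK2]; positivity
    set K5 : ℝ := (2 * A * (1 + Λ / Real.log 2)) ^ α +
      (2 * A * (Real.log 2 + 3 + Λ) * (1 + 1 / (ε / (2 * α)))) ^ α * (Real.log 2) ^ (-β) with hK5
    have hK50 : 0 ≤ K5 := by rw [hK5]; positivity
    have hK20' : 0 < K2 ^ β := Real.rpow_pos_of_pos hK20 _
    refine ⟨2 * K2 ^ β + C1 * K5 + (1 / Real.log 2) ^ 3, by positivity, ?_⟩
    intro x W hW hWx S hS
    have hx : 2 ≤ x := hW.trans hWx
    have hLW : Real.log 2 ≤ Real.log W :=
      Real.log_le_log (by norm_num) (by exact_mod_cast hW)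
    have hLW0 : 0 < Real.log W := lt_of_lt_of_le hl2 hLW
    have hLx : 0 < Real.log x := Real.log_pos (by exact_mod_cast (by omega : 1 < x))
    have hWx' : Real.log W ≤ Real.log x :=
      Real.log_le_log (by exact_mod_cast (by omega : 0 < W)) (by exact_mod_cast hWx)
    have hb0 : 0 < Real.log W / Real.log x := div_pos hLW0 hLx
    have hb1 : Real.log W / Real.log x ≤ 1 := (div_le_one hLx).2 hWx'
    have hbβ : 0 < (Real.log W / Real.log x) ^ β := Real.rpow_pos_of_pos hb0 _
    have hx0 : (0 : ℝ) < x := by exact_mod_cast (by omega : 0 < x)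
    obtain ⟨z, hzA, hzlog⟩ := cnt_z x A hA (by omega)
    set w : ℕ := max W (max ⌈(Real.log x) ^ 3⌉₊ (8 * lam + 7)) with hw
    have hwW : W ≤ w := le_max_left _ _
    have hwc : ⌈(Real.log x) ^ 3⌉₊ ≤ w := (le_max_left _ _).trans (le_max_right _ _)
    have hwl : 8 * lam + 7 ≤ w := (le_max_right _ _).trans (le_max_right _ _)
    by_cases hwz : w ≤ z
    · -- the main case
      have h1 := hcount x W w z hwW hwl hwz hzA S hS
      have hz15 : 15 ≤ z := by omega
      have hzx : z ≤ x := (Nat.le_self_pow (by omega) z).trans hzA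
      have hLx1 : 1 ≤ Real.log x := by
        have h2 : Real.exp 1 ≤ x := by
          have h3 := Real.exp_one_lt_d9
          have h4 : (15 : ℝ) ≤ x := by exact_mod_cast hz15.trans hzx
          linarith
        rw [Real.le_log_iff_exp_le hx0]
        exact h2
      have hw0 : (0 : ℝ) < w := by exact_mod_cast (by omega : 0 < w)
      have hLw0 : 0 ≤ Real.log w := Real.log_nonneg (by exact_mod_cast (by omega : 1 ≤ w))
      have hz0 : (0 : ℝ) < z := by exact_mod_cast (by omega : 0 < z)
      have hLz : Real.log x ≤ 2 * A * Real.log z := by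
        have h2 : Real.log ((z : ℝ) + 1) ≤ 2 * Real.log z := by
          have h3 : (z : ℝ) + 1 ≤ (z : ℝ) ^ 2 := by
            have h4 : (15 : ℝ) ≤ z := by exact_mod_cast hz15
            nlinarith
          have h5 := Real.log_le_log (by positivity) h3
          rw [Real.log_pow] at h5
          exact_mod_cast h5
        calc Real.log x ≤ A * Real.log ((z : ℝ) + 1) := hzlog
          _ ≤ A * (2 * Real.log z) := mul_le_mul_of_nonneg_left h2 (by linarith)
          _ = _ := by ring
      have hLw : Real.log w ≤ Real.log W + Λ ∨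
          Real.log w ≤ Real.log 2 + 3 * Real.log (Real.log x) + Λ := by
        by_cases hWc : ⌈(Real.log x) ^ 3⌉₊ ≤ W
        · left
          have h2 : w ≤ W * (8 * lam + 7) := by
            rw [hw]
            refine max_le (Nat.le_mul_of_pos_right W (by omega)) (max_le ?_ ?_)
            · exact hWc.trans (Nat.le_mul_of_pos_right W (by omega))
            · exact Nat.le_mul_of_pos_left _ (by omega)
          have h3 : (w : ℝ) ≤ (W : ℝ) * ((8 * lam + 7 : ℕ) : ℝ) := by exact_mod_cast h2
          have h4 := Real.log_le_log hw0 h3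
          rw [Real.log_mul (by positivity) (by positivity)] at h4
          exact h4
        · right
          push Not at hWc
          have hc1 : 1 ≤ ⌈(Real.log x) ^ 3⌉₊ := by omega
          have h2 : w ≤ ⌈(Real.log x) ^ 3⌉₊ * (8 * lam + 7) := by
            rw [hw]
            refine max_le ?_ (max_le ?_ ?_)
            · exact hWc.le.trans (Nat.le_mul_of_pos_right _ (by omega))
            · exact Nat.le_mul_of_pos_right _ (by omega)
            · exact Nat.le_mul_of_pos_left _ hc1
          have h3 : (w : ℝ) ≤ (⌈(Real.log x) ^ 3⌉₊ : ℝ) * ((8 * lam + 7 : ℕ) : ℝ) := by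
            exact_mod_cast h2
          have h4 := Real.log_le_log hw0 h3
          have hc0 : (0 : ℝ) < (⌈(Real.log x) ^ 3⌉₊ : ℝ) := by exact_mod_cast hc1
          rw [Real.log_mul hc0.ne' (by positivity)] at h4
          have h5 := cnt_ceil (Real.log x) hLx1
          linarith
      have h2 := cnt_main (Real.log W) (Real.log x) (Real.log w) (Real.log z) A _ _ Λ α β
        (ε / (2 * α)) hAR hLW hLx1 hWx' hLz hΛ rfl rfl hLw0 hα hβ hβα hδ hδα hLw
      rw [← hK5] at h2
      have h3 : (x : ℝ) / w ≤ (1 / Real.log 2) ^ 3 * x *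
          (Real.log W / Real.log x) ^ β := by
        have h4 : (Real.log x) ^ 3 ≤ w := (Nat.le_ceil _).trans (by exact_mod_cast hwc)
        have h5 : 1 / (w : ℝ) ≤ 1 / (Real.log x) ^ 3 :=
          one_div_le_one_div_of_le (by positivity) h4
        have h6 : (Real.log 2 / Real.log x) ^ (3 : ℝ) ≤
            (Real.log W / Real.log x) ^ β := by
          have h7 : (Real.log W / Real.log x) ^ (3 : ℝ) ≤ (Real.log W / Real.log x) ^ β :=
            Real.rpow_le_rpow_of_exponent_ge hb0 hb1 hβ3
          refine le_trans ?_ h7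
          exact Real.rpow_le_rpow (by positivity)
            (div_le_div_of_nonneg_right hLW hLx.le) (by norm_num)
        have h8 : (Real.log 2 / Real.log x) ^ (3 : ℝ) = (Real.log 2 / Real.log x) ^ 3 := by
          rw [← Real.rpow_natCast]
          norm_num
        rw [h8] at h6
        have h9 : 1 / (Real.log x) ^ 3 =
            (1 / Real.log 2) ^ 3 * (Real.log 2 / Real.log x) ^ 3 := by
          field_simp
        calc (x : ℝ) / w = x * (1 / w) := by ring
          _ ≤ x * (1 / (Real.log x) ^ 3) := mul_le_mul_of_nonneg_left h5 hx0.le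
          _ = x * ((1 / Real.log 2) ^ 3 * (Real.log 2 / Real.log x) ^ 3) := by rw [h9]
          _ ≤ x * ((1 / Real.log 2) ^ 3 * (Real.log W / Real.log x) ^ β) :=
              mul_le_mul_of_nonneg_left (mul_le_mul_of_nonneg_left h6 (by positivity)) hx0.le
          _ = _ := by ring
      have h10 : C1 * x * (Real.log w / Real.log z) ^ α ≤
          C1 * x * (K5 * (Real.log W / Real.log x) ^ β) :=
        mul_le_mul_of_nonneg_left h2 (by positivity)
      have h11 : 0 ≤ 2 * K2 ^ β * x * (Real.log W / Real.log x) ^ β := by positivity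
      calc (S.card : ℝ) ≤ C1 * x * (Real.log w / Real.log z) ^ α + x / w := h1
        _ ≤ C1 * x * (K5 * (Real.log W / Real.log x) ^ β) + (1 / Real.log 2) ^ 3 * x *
          (Real.log W / Real.log x) ^ β := add_le_add h10 h3
        _ ≤ 2 * K2 ^ β * x * (Real.log W / Real.log x) ^ β +
          (C1 * x * (K5 * (Real.log W / Real.log x) ^ β) + (1 / Real.log 2) ^ 3 * x *
          (Real.log W / Real.log x) ^ β) := by linarith
        _ = _ := by ring
    · -- the trivial case
      push Not at hwz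
      have hw0 : (0 : ℝ) < (z : ℝ) + 1 := by positivity
      have h1 : Real.log x ≤ A * Real.log w := by
        refine hzlog.trans (mul_le_mul_of_nonneg_left ?_ (by linarith))
        exact Real.log_le_log hw0 (by exact_mod_cast hwz)
      have h2 : Real.log x ≤ K2 * Real.log W := by
        have hA2 : 0 ≤ (A : ℝ) * Real.log W := by positivity
        have hB2 : 0 ≤ A * Λ / Real.log 2 * Real.log W := by positivity
        have hC2 : 0 ≤ 49 * (A : ℝ) ^ 2 / Real.log 2 * Real.log W := by positivity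
        have hexp : K2 * Real.log W = A * Real.log W + A * Λ / Real.log 2 * Real.log W +
            49 * (A : ℝ) ^ 2 / Real.log 2 * Real.log W := by
          rw [hK2]
          ring
        rw [hexp]
        rcases max_choice W (max ⌈(Real.log x) ^ 3⌉₊ (8 * lam + 7)) with h3 | h3
        · have h4 : w = W := h3
          rw [h4] at h1
          linarith
        · rcases max_choice ⌈(Real.log x) ^ 3⌉₊ (8 * lam + 7) with h5 | h5
          · have h6 : w = ⌈(Real.log x) ^ 3⌉₊ := h3.trans h5
            rw [h6] at h1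
            have h7 : Real.log x ≤ 49 * (A : ℝ) ^ 2 := by
              by_cases hL : 1 ≤ Real.log x
              · have h8 := cnt_ceil (Real.log x) hL
                have h9 := Real.log_le_rpow_div hLx.le (by norm_num : (0 : ℝ) < 1 / 2)
                rw [← Real.sqrt_eq_rpow] at h9
                have h10 : 1 ≤ Real.sqrt (Real.log x) := Real.one_le_sqrt.2 hL
                have h11 : Real.sqrt (Real.log x) ^ 2 = Real.log x := Real.sq_sqrt hLx.le
                have h12 : Real.log 2 ≤ 1 := by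
                  have := Real.log_two_lt_d9
                  linarith
                have h13 : Real.log (⌈(Real.log x) ^ 3⌉₊ : ℝ) ≤
                    7 * Real.sqrt (Real.log x) := by
                  linarith
                have h14 : Real.log x ≤ A * (7 * Real.sqrt (Real.log x)) :=
                  h1.trans (mul_le_mul_of_nonneg_left h13 (by linarith))
                have h15 : Real.sqrt (Real.log x) ≤ 7 * A := by
                  have h16 : Real.sqrt (Real.log x) * Real.sqrt (Real.log x) ≤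
                      (7 * A) * Real.sqrt (Real.log x) := by
                    rw [← pow_two, h11]
                    linarith
                  exact le_of_mul_le_mul_right h16 (by linarith)
                calc Real.log x = Real.sqrt (Real.log x) ^ 2 := h11.symm
                  _ ≤ (7 * A) ^ 2 := pow_le_pow_left₀ (by linarith) h15 2
                  _ = _ := by ring
              · push Not at hL
                nlinarith
            have h8 : 49 * (A : ℝ) ^ 2 ≤ 49 * (A : ℝ) ^ 2 / Real.log 2 * Real.log W := by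
              rw [div_mul_eq_mul_div, le_div_iff₀ hl2]
              exact mul_le_mul_of_nonneg_left hLW (by positivity)
            linarith
          · have h6 : w = 8 * lam + 7 := h3.trans h5
            rw [h6] at h1
            have h7 : A * Λ ≤ A * Λ / Real.log 2 * Real.log W := by
              rw [div_mul_eq_mul_div, le_div_iff₀ hl2]
              exact mul_le_mul_of_nonneg_left hLW (by positivity)
            linarith
      have h3 : 1 ≤ K2 ^ β * (Real.log W / Real.log x) ^ β := by
        rw [← Real.mul_rpow hK20.le hb0.le]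
        refine Real.one_le_rpow ?_ hβ.le
        rw [mul_div_assoc', le_div_iff₀ hLx]
        linarith
      have h4 := htriv x S hx (fun k hk => (hS k hk).1)
      have h5 : (0 : ℝ) ≤ 2 * x := by positivity
      have h6 : 0 ≤ (C1 * K5 + (1 / Real.log 2) ^ 3) * x * (Real.log W / Real.log x) ^ β := by
        positivity
      calc (S.card : ℝ) ≤ 2 * x * 1 := by linarith
        _ ≤ 2 * x * (K2 ^ β * (Real.log W / Real.log x) ^ β) :=
            mul_le_mul_of_nonneg_left h3 h5
        _ ≤ 2 * x * (K2 ^ β * (Real.log W / Real.log x) ^ β) +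
            (C1 * K5 + (1 / Real.log 2) ^ 3) * x * (Real.log W / Real.log x) ^ β := by linarith
        _ = _ := by ring

end Pool.Agent.Helper17.SO
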